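import Pool.Agent.Helper29.CR.C5

/-!
# CR, leaf K4: the derivative of `VV` is bounded near compact pieces of the line without zeros

At `y ≠ 0` with `G (i y) ≠ 0`: on a small disc `U` around `i y` there is a holomorphic logarithm `ℓ` of `G`, on
`U ∩ {0 < re}` the branch `L` is `ℓ` plus a constant, so `VV` is the restriction of a holomorphic function of `U`.
At `0`: `near_zero_deriv` (C5). Then compactness.
-/

set_option autoImplicit false

namespace Pool.Agent.Helper16.CR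

open Complex Filter Topology MeasureTheory Set Metric
open Pool.Agent.Helper13.Bsd Pool.Agent.Helper7.GW Pool.Agent.Helper58.BSD Pool.Agent.Helper29.MS

variable {v : ℝ → ℝ} {G : ℂ → ℂ} {A a η B c : ℝ} {k : ℕ}

/-- the local statement away from `0` -/
theorem middle_local (hF : Frame v G A a η B c k) {L : ℂ → ℂ} (hL : Branch v G a L) (y0 : ℝ) (hy0 : y0 ≠ 0)
    (h0 : G ((y0 : ℂ) * I) ≠ 0) :
    ∃ δ K : ℝ, 0 < δ ∧ 0 ≤ K ∧ ∀ w : ℂ, 0 < w.re → ‖w - (y0 : ℂ) * I‖ < δ →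
      ‖deriv (VV L (kap G)) w‖ ≤ K := by
  have hη := hF.setup.hη
  have hopen : ∀ x : ℝ, IsOpen {w : ℂ | x < w.re} := fun x => isOpen_lt continuous_const continuous_re
  have hconv : ∀ x : ℝ, Convex ℝ {w : ℂ | x < w.re} := fun x => convex_halfSpace_re_gt x
  set p : ℂ := (y0 : ℂ) * I with hp
  have hpre : p.re = 0 := by simp [hp]
  have hpim : p.im = y0 := by simp [hp]
  have hpn : ‖p‖ = |y0| := by
    rw [hp, norm_mul, norm_I, mul_one, norm_real, Real.norm_eq_abs]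
  have hp_mem : p ∈ {s : ℂ | -η < s.re} := by
    show -η < p.re
    rw [hpre]
    linarith
  have hGd : DifferentiableAt ℂ G p := hF.setup.diff.differentiableAt ((hopen (-η)).mem_nhds hp_mem)
  have hpos : 0 < ‖G p‖ := norm_pos_iff.mpr h0
  obtain ⟨δ0, hδ0, hδ⟩ := Metric.continuousAt_iff.mp hGd.continuousAt ‖G p‖ hpos
  have hy0' : 0 < |y0| := abs_pos.mpr hy0
  set δ1 := min δ0 (min η |y0|) with hδ1
  have hδ1pos : 0 < δ1 := lt_min hδ0 (lt_min hη hy0')
  set U : Set ℂ := ball p δ1 with hU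
  have hUo : IsOpen U := isOpen_ball
  have hUη : ∀ w ∈ U, -η < w.re := by
    intro w hw
    rw [hU, mem_ball, dist_eq_norm] at hw
    have h1 : |(w - p).re| < η :=
      (abs_re_le_norm _).trans_lt (hw.trans_le ((min_le_right _ _).trans (min_le_left _ _)))
    rw [sub_re, hpre, sub_zero] at h1
    exact (abs_lt.mp h1).1
  have hUne : ∀ w ∈ U, w ≠ 0 := by
    intro w hw hw0
    rw [hU, mem_ball, dist_eq_norm, hw0, zero_sub, norm_neg, hpn] at hw
    exact absurd (hw.trans_le ((min_le_right _ _).trans (min_le_right _ _))) (lt_irrefl _)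
  have hUG : ∀ w ∈ U, G w ≠ 0 := by
    intro w hw hw0
    have h1 := hδ (x := w) (hw.trans_le (min_le_left _ _))
    rw [dist_eq_norm, hw0, zero_sub, norm_neg] at h1
    exact lt_irrefl _ h1
  have hGU : DifferentiableOn ℂ G U := hF.setup.diff.mono (fun w hw => hUη w hw)
  obtain ⟨ℓ, hℓd, hℓe⟩ := exists_log hUo (convex_ball p δ1) ⟨p, mem_ball_self hδ1pos⟩ hGU hUG
  set D : Set ℂ := U ∩ {w : ℂ | 0 < w.re} with hD
  have hDo : IsOpen D := hUo.inter (hopen 0)
  have hDp : IsPreconnected D := ((convex_ball p δ1).inter (hconv 0)).isPreconnected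
  have hHd : DifferentiableOn ℂ (fun w => L w - ℓ w) D :=
    (hL.diff.mono inter_subset_right).sub (hℓd.mono inter_subset_left)
  have hHe : ∀ w ∈ D, cexp (L w - ℓ w) = 1 := by
    intro w hw
    rw [exp_sub, hL.exp w hw.2, hℓe w hw.1]
    exact div_self (hUG w hw.1)
  set w1 : ℂ := p + ((δ1 / 2 : ℝ) : ℂ) with hw1
  have hw1D : w1 ∈ D := by
    refine ⟨?_, ?_⟩
    · rw [hU, mem_ball, dist_eq_norm, hw1, add_sub_cancel_left, norm_real, Real.norm_eq_abs,
        abs_of_pos (by positivity)]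
      linarith
    · show 0 < w1.re
      rw [hw1, add_re, hpre, ofReal_re, zero_add]
      positivity
  set C0 : ℂ := L w1 - ℓ w1 with hC0
  have hconst : ∀ w ∈ D, L w = ℓ w + C0 := by
    intro w hw
    have h1 := const_of_exp hDo hDp hHd hHe hw hw1D
    rw [hC0, ← h1]
    ring
  set F : ℂ → ℂ := fun w => -(ℓ w + C0 + (kap G : ℂ)) / w with hFdef
  have hFd : DifferentiableOn ℂ F U := by
    apply DifferentiableOn.div
    · exact ((hℓd.add_const _).add_const _).neg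
    · exact differentiableOn_id
    · exact hUne
  have hdc : ContinuousAt (deriv F) p :=
    ((hFd.deriv hUo).differentiableAt (hUo.mem_nhds (mem_ball_self hδ1pos))).continuousAt
  obtain ⟨δ2, hδ2, hδ2'⟩ := Metric.continuousAt_iff.mp hdc 1 one_pos
  refine ⟨min δ1 δ2, ‖deriv F p‖ + 1, lt_min hδ1pos hδ2, by positivity, ?_⟩
  intro w hw hwn
  have hwD : w ∈ D := ⟨by rw [hU, mem_ball, dist_eq_norm]; exact hwn.trans_le (min_le_left _ _), hw⟩
  have hev : VV L (kap G) =ᶠ[𝓝 w] F := by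
    filter_upwards [hDo.mem_nhds hwD] with z hz
    simp only [VV, hFdef]
    rw [hconst z hz]
  have h1 := hδ2' (x := w) (by rw [dist_eq_norm]; exact hwn.trans_le (min_le_right _ _))
  rw [dist_eq_norm] at h1
  rw [hev.deriv_eq]
  have h3 := norm_le_norm_add_norm_sub' (deriv F w) (deriv F p)
  linarith

/-- K4. compact sets without zeros -/
theorem middle (hF : Frame v G A a η B c k) {L : ℂ → ℂ} (hL : Branch v G a L) (S : Set ℝ) (hS : IsCompact S)
    (h0 : ∀ y ∈ S, G ((y : ℂ) * I) ≠ 0) :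
    ∃ σ0 C : ℝ, 0 < σ0 ∧ 0 ≤ C ∧ ∀ σ : ℝ, 0 < σ → σ ≤ σ0 → ∀ y ∈ S,
      ‖deriv (VV L (kap G)) ((σ : ℂ) + (y : ℂ) * I)‖ ≤ C := by
  have hloc : ∀ y0 ∈ S, ∃ δ K : ℝ, 0 < δ ∧ 0 ≤ K ∧ ∀ w : ℂ, 0 < w.re → ‖w - (y0 : ℂ) * I‖ < δ →
      ‖deriv (VV L (kap G)) w‖ ≤ K := by
    intro y0 hy
    by_cases hz : y0 = 0
    · obtain ⟨δ, K, hδ, hK, h⟩ := near_zero_deriv hF hL
      refine ⟨δ, K, hδ, hK, fun w hw hwn => h w hw ?_⟩
      rw [hz, ofReal_zero, zero_mul, sub_zero] at hwn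
      exact hwn
    · exact middle_local hF hL y0 hz (h0 y0 hy)
  refine hS.induction_on (p := fun s => ∃ σ0 C : ℝ, 0 < σ0 ∧ 0 ≤ C ∧ ∀ σ : ℝ, 0 < σ → σ ≤ σ0 → ∀ y ∈ s,
      ‖deriv (VV L (kap G)) ((σ : ℂ) + (y : ℂ) * I)‖ ≤ C) ?_ ?_ ?_ ?_
  · exact ⟨1, 0, one_pos, le_rfl, fun σ _ _ y hy => absurd hy (notMem_empty y)⟩
  · rintro s t hst ⟨σ0, C, h1, h2, h3⟩
    exact ⟨σ0, C, h1, h2, fun σ hσ hσ' y hy => h3 σ hσ hσ' y (hst hy)⟩
  · rintro s t ⟨σ0, C, h1, h2, h3⟩ ⟨σ1, C1, g1, g2, g3⟩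
    refine ⟨min σ0 σ1, max C C1, lt_min h1 g1, h2.trans (le_max_left _ _), ?_⟩
    intro σ hσ hσ' y hy
    rcases hy with hy | hy
    · exact (h3 σ hσ (hσ'.trans (min_le_left _ _)) y hy).trans (le_max_left _ _)
    · exact (g3 σ hσ (hσ'.trans (min_le_right _ _)) y hy).trans (le_max_right _ _)
  · intro y0 hy
    obtain ⟨δ, K, hδ, hK, h⟩ := hloc y0 hy
    refine ⟨ball y0 (δ / 2), mem_nhdsWithin_of_mem_nhds (ball_mem_nhds y0 (by positivity)), δ / 4, K,
      by positivity, hK, ?_⟩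
    intro σ hσ hσ' y hyb
    apply h
    · simp only [add_re, ofReal_re, mul_re, I_re, mul_zero, ofReal_im, I_im, mul_one, sub_self, add_zero]
      exact hσ
    · rw [mem_ball, Real.dist_eq] at hyb
      have e1 : (σ : ℂ) + (y : ℂ) * I - (y0 : ℂ) * I = (σ : ℂ) + ((y - y0 : ℝ) : ℂ) * I := by
        push_cast
        ring
      rw [e1]
      refine (norm_add_le _ _).trans_lt ?_
      rw [norm_mul, norm_I, mul_one, norm_real, norm_real, Real.norm_eq_abs, Real.norm_eq_abs, abs_of_pos hσ]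
      linarith

end Pool.Agent.Helper16.CR
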